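import Pool.Agent.V8H98.JF.Base

set_option autoImplicit false

namespace Pool.Agent.V8H4.F2

open Pool.Agent.V8H98.JF

/-- A subgroup of index two is determined by the generators which it contains. -/
theorem eq_of_gens {G : Type} [Group G] {S : Set G} (hS : Subgroup.closure S = ⊤) {A B : Subgroup G}
    (hA : A.index = 2) (hB : B.index = 2) (h : ∀ s ∈ S, s ∈ A ↔ s ∈ B) : A = B := by
  ext x
  have hx : x ∈ Subgroup.closure S := by rw [hS]; exact Subgroup.mem_top x
  induction hx using Subgroup.closure_induction with
  | mem x hx => exact h x hx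
  | one => simp [one_mem]
  | mul x y _ _ hx hy =>
    rw [Subgroup.mul_mem_iff_of_index_two hA, Subgroup.mul_mem_iff_of_index_two hB]
    exact iff_congr hx hy
  | inv x _ hx =>
    rw [inv_mem_iff, inv_mem_iff]
    exact hx

theorem finite_index_two (g : ℕ) : Finite {Γ : Subgroup (SurfaceGroup g) // Γ.index = 2} := by
  classical
  let S : Set (SurfaceGroup g) := Set.range (PresentedGroup.of (rels := {rel g}))
  have hS : Subgroup.closure S = ⊤ := PresentedGroup.closure_range_of _
  let F : {Γ : Subgroup (SurfaceGroup g) // Γ.index = 2} → (Fin g ⊕ Fin g → Prop) :=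
    fun Γ i => (PresentedGroup.of i : SurfaceGroup g) ∈ Γ.1
  refine Finite.of_injective F ?_
  intro A B h
  apply Subtype.ext
  refine eq_of_gens hS A.2 B.2 ?_
  rintro _ ⟨i, rfl⟩
  exact iff_of_eq (congrFun h i)

end Pool.Agent.V8H4.F2
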